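import Pool.Agent.Strip051.Box.C2
import Pool.Agent.Strip051.Box.S30
import Pool.Agent.Strip051.LB.Fc.F2

/-! # LINE tight chart ChB03V1_pp_023 -/

namespace Pool.Agent.Strip051.LB.ChB03V1_pp_023

open Pool.Agent.Strip051.Box Pool.Agent.Strip051.Box2

open Pool.Agent.Strip051.LB.Fc Pool.Agent.Strip051.LB.Fc.F2 Pool.Agent.Strip051.LB.Fn Pool.Agent.Strip051.LB.Fn.F2

/-- coordinates of a point of the box -/
def In (b : Bx) (E : Pt) (x1 x2 : ℝ) : Prop :=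
  (S : ℝ) * x1 = ((b.p1 : ℝ) - b.n1) + b.q1 * E.e1 ∧ (S : ℝ) * x2 = ((b.p2 : ℝ) - b.n2) + b.q2 * E.e2

variable {b : Bx} {E : Pt} {x1 x2 : ℝ}

def t0 (b : Bx) : TM := X1 b
noncomputable def v0 (x1 _x2 : ℝ) : ℝ := x1
theorem h0 (h : In b E x1 x2) : Enc S E (t0 b) (v0 x1 x2) := enc_X1 h.1

def t1 (b : Bx) : TM := X2 b
noncomputable def v1 (_x1 x2 : ℝ) : ℝ := x2
theorem h1 (h : In b E x1 x2) : Enc S E (t1 b) (v1 x1 x2) := enc_X2 h.2

def t2 (_b : Bx) : TM := tconst 1859775393 0 1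
noncomputable def v2 (_x1 _x2 : ℝ) : ℝ := Real.sqrt ((3 : ℕ) : ℝ)
theorem h2 (_h : In b E x1 x2) : Enc S E (t2 b) (v2 x1 x2) := enc_sqrtn E (by decide) (by decide)

def t3 (b : Bx) : TM := tscale 1 2 (t2 b)
noncomputable def v3 (x1 x2 : ℝ) : ℝ := ((1 : ℕ) : ℝ) / ((2 : ℕ) : ℝ) * v2 x1 x2
theorem h3 (h : In b E x1 x2) : Enc S E (t3 b) (v3 x1 x2) := enc_scale 1 (by norm_num) (h2 h)

def t4 (b : Bx) : TM := tsq S (t0 b)
noncomputable def v4 (x1 x2 : ℝ) : ℝ := (v0 x1 x2) ^ 2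
theorem h4 (h : In b E x1 x2) : Enc S E (t4 b) (v4 x1 x2) := enc_sq hS (h0 h)

def t5 (_b : Bx) : TM := tconst (Nat.mul 1 S) 0 0
noncomputable def v5 (_x1 _x2 : ℝ) : ℝ := ((1 : ℕ) : ℝ)
theorem h5 (_h : In b E x1 x2) : Enc S E (t5 b) (v5 x1 x2) := enc_nc E 1

def t6 (b : Bx) : TM := tsub (t5 b) (t4 b)
noncomputable def v6 (x1 x2 : ℝ) : ℝ := v5 x1 x2 - v4 x1 x2
theorem h6 (h : In b E x1 x2) : Enc S E (t6 b) (v6 x1 x2) := enc_sub (h5 h) (h4 h)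

def t7 (b : Bx) : TM := tsqrt S (t6 b)
noncomputable def v7 (x1 x2 : ℝ) : ℝ := Real.sqrt (v6 x1 x2)
theorem h7 (h : In b E x1 x2) : Enc S E (t7 b) (v7 x1 x2) := enc_sqrt hS (h6 h)

def t9 (_b : Bx) : TM := tconst (Nat.div (Nat.mul 1 S) 2) 0 1
noncomputable def v9 (_x1 _x2 : ℝ) : ℝ := ((1 : ℕ) : ℝ) / ((2 : ℕ) : ℝ)
theorem h9 (_h : In b E x1 x2) : Enc S E (t9 b) (v9 x1 x2) := enc_rat E 1 (by norm_num)

def t10 (b : Bx) : TM := tscale 1 2 (t7 b)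
noncomputable def v10 (x1 x2 : ℝ) : ℝ := ((1 : ℕ) : ℝ) / ((2 : ℕ) : ℝ) * v7 x1 x2
theorem h10 (h : In b E x1 x2) : Enc S E (t10 b) (v10 x1 x2) := enc_scale 1 (by norm_num) (h7 h)

def t11 (b : Bx) : TM := tmul S (t0 b) (t3 b)
noncomputable def v11 (x1 x2 : ℝ) : ℝ := v0 x1 x2 * v3 x1 x2
theorem h11 (h : In b E x1 x2) : Enc S E (t11 b) (v11 x1 x2) := enc_mul hS (h0 h) (h3 h)

def t13 (b : Bx) : TM := tscale 1 2 (t0 b)
noncomputable def v13 (x1 x2 : ℝ) : ℝ := ((1 : ℕ) : ℝ) / ((2 : ℕ) : ℝ) * v0 x1 x2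
theorem h13 (h : In b E x1 x2) : Enc S E (t13 b) (v13 x1 x2) := enc_scale 1 (by norm_num) (h0 h)

def t14 (b : Bx) : TM := tmul S (t7 b) (t3 b)
noncomputable def v14 (x1 x2 : ℝ) : ℝ := v7 x1 x2 * v3 x1 x2
theorem h14 (h : In b E x1 x2) : Enc S E (t14 b) (v14 x1 x2) := enc_mul hS (h7 h) (h3 h)

def t16 (b : Bx) : TM := tsub (t14 b) (t13 b)
noncomputable def v16 (x1 x2 : ℝ) : ℝ := v14 x1 x2 - v13 x1 x2
theorem h16 (h : In b E x1 x2) : Enc S E (t16 b) (v16 x1 x2) := enc_sub (h14 h) (h13 h)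

def t17 (b : Bx) : TM := tadd (t11 b) (t10 b)
noncomputable def v17 (x1 x2 : ℝ) : ℝ := v11 x1 x2 + v10 x1 x2
theorem h17 (h : In b E x1 x2) : Enc S E (t17 b) (v17 x1 x2) := enc_add (h11 h) (h10 h)

def t18 (b : Bx) : TM := tmul S (t16 b) (t2 b)
noncomputable def v18 (x1 x2 : ℝ) : ℝ := v16 x1 x2 * v2 x1 x2
theorem h18 (h : In b E x1 x2) : Enc S E (t18 b) (v18 x1 x2) := enc_mul hS (h16 h) (h2 h)

def t19 (b : Bx) : TM := tmul S (t17 b) (t2 b)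
noncomputable def v19 (x1 x2 : ℝ) : ℝ := v17 x1 x2 * v2 x1 x2
theorem h19 (h : In b E x1 x2) : Enc S E (t19 b) (v19 x1 x2) := enc_mul hS (h17 h) (h2 h)

def t20 (b : Bx) : TM := tsub (t1 b) (t18 b)
noncomputable def v20 (x1 x2 : ℝ) : ℝ := v1 x1 x2 - v18 x1 x2
theorem h20 (h : In b E x1 x2) : Enc S E (t20 b) (v20 x1 x2) := enc_sub (h1 h) (h18 h)

def t21 (b : Bx) : TM := tsq S (t1 b)
noncomputable def v21 (x1 x2 : ℝ) : ℝ := (v1 x1 x2) ^ 2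
theorem h21 (h : In b E x1 x2) : Enc S E (t21 b) (v21 x1 x2) := enc_sq hS (h1 h)

def t22 (_b : Bx) : TM := tconst (Nat.mul 3 S) 0 0
noncomputable def v22 (_x1 _x2 : ℝ) : ℝ := ((3 : ℕ) : ℝ)
theorem h22 (_h : In b E x1 x2) : Enc S E (t22 b) (v22 x1 x2) := enc_nc E 3

def t23 (b : Bx) : TM := tsub (t22 b) (t21 b)
noncomputable def v23 (x1 x2 : ℝ) : ℝ := v22 x1 x2 - v21 x1 x2
theorem h23 (h : In b E x1 x2) : Enc S E (t23 b) (v23 x1 x2) := enc_sub (h22 h) (h21 h)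

def t24 (b : Bx) : TM := tsqrt S (t23 b)
noncomputable def v24 (x1 x2 : ℝ) : ℝ := Real.sqrt (v23 x1 x2)
theorem h24 (h : In b E x1 x2) : Enc S E (t24 b) (v24 x1 x2) := enc_sqrt hS (h23 h)

def t25 (b : Bx) : TM := tsub (t1 b) (t7 b)
noncomputable def v25 (x1 x2 : ℝ) : ℝ := v1 x1 x2 - v7 x1 x2
theorem h25 (h : In b E x1 x2) : Enc S E (t25 b) (v25 x1 x2) := enc_sub (h1 h) (h7 h)

def t26 (b : Bx) : TM := tsub (t24 b) (t0 b)
noncomputable def v26 (x1 x2 : ℝ) : ℝ := v24 x1 x2 - v0 x1 x2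
theorem h26 (h : In b E x1 x2) : Enc S E (t26 b) (v26 x1 x2) := enc_sub (h24 h) (h0 h)

def t27 (b : Bx) : TM := tsub (t18 b) (t1 b)
noncomputable def v27 (x1 x2 : ℝ) : ℝ := v18 x1 x2 - v1 x1 x2
theorem h27 (h : In b E x1 x2) : Enc S E (t27 b) (v27 x1 x2) := enc_sub (h18 h) (h1 h)

def t28 (b : Bx) : TM := tmul S (t2 b) (t0 b)
noncomputable def v28 (x1 x2 : ℝ) : ℝ := v2 x1 x2 * v0 x1 x2
theorem h28 (h : In b E x1 x2) : Enc S E (t28 b) (v28 x1 x2) := enc_mul hS (h2 h) (h0 h)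

def t29 (b : Bx) : TM := tsub (t7 b) (t28 b)
noncomputable def v29 (x1 x2 : ℝ) : ℝ := v7 x1 x2 - v28 x1 x2
theorem h29 (h : In b E x1 x2) : Enc S E (t29 b) (v29 x1 x2) := enc_sub (h7 h) (h28 h)

def t30 (b : Bx) : TM := tadd (t5 b) (t7 b)
noncomputable def v30 (x1 x2 : ℝ) : ℝ := v5 x1 x2 + v7 x1 x2
theorem h30 (h : In b E x1 x2) : Enc S E (t30 b) (v30 x1 x2) := enc_add (h5 h) (h7 h)

def t31 (b : Bx) : TM := tmul S (t29 b) (t30 b)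
noncomputable def v31 (x1 x2 : ℝ) : ℝ := v29 x1 x2 * v30 x1 x2
theorem h31 (h : In b E x1 x2) : Enc S E (t31 b) (v31 x1 x2) := enc_mul hS (h29 h) (h30 h)

def t32 (b : Bx) : TM := tsub (t30 b) (t28 b)
noncomputable def v32 (x1 x2 : ℝ) : ℝ := v30 x1 x2 - v28 x1 x2
theorem h32 (h : In b E x1 x2) : Enc S E (t32 b) (v32 x1 x2) := enc_sub (h30 h) (h28 h)

def t33 (b : Bx) : TM := tinv S (t32 b)
noncomputable def v33 (x1 x2 : ℝ) : ℝ := (v32 x1 x2)⁻¹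
theorem h33 (h : In b E x1 x2) : Enc S E (t33 b) (v33 x1 x2) := enc_inv hS (h32 h)

def t34 (b : Bx) : TM := tmul S (t31 b) (t33 b)
noncomputable def v34 (x1 x2 : ℝ) : ℝ := v31 x1 x2 * v33 x1 x2
theorem h34 (h : In b E x1 x2) : Enc S E (t34 b) (v34 x1 x2) := enc_mul hS (h31 h) (h33 h)

def t35 (b : Bx) : TM := tmul S (t2 b) (t1 b)
noncomputable def v35 (x1 x2 : ℝ) : ℝ := v2 x1 x2 * v1 x1 x2
theorem h35 (h : In b E x1 x2) : Enc S E (t35 b) (v35 x1 x2) := enc_mul hS (h2 h) (h1 h)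

def t36 (b : Bx) : TM := tsub (t35 b) (t24 b)
noncomputable def v36 (x1 x2 : ℝ) : ℝ := v35 x1 x2 - v24 x1 x2
theorem h36 (h : In b E x1 x2) : Enc S E (t36 b) (v36 x1 x2) := enc_sub (h35 h) (h24 h)

def t37 (b : Bx) : TM := tadd (t1 b) (t22 b)
noncomputable def v37 (x1 x2 : ℝ) : ℝ := v1 x1 x2 + v22 x1 x2
theorem h37 (h : In b E x1 x2) : Enc S E (t37 b) (v37 x1 x2) := enc_add (h1 h) (h22 h)

def t38 (b : Bx) : TM := tmul S (t2 b) (t24 b)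
noncomputable def v38 (x1 x2 : ℝ) : ℝ := v2 x1 x2 * v24 x1 x2
theorem h38 (h : In b E x1 x2) : Enc S E (t38 b) (v38 x1 x2) := enc_mul hS (h2 h) (h24 h)

def t39 (b : Bx) : TM := tsub (t37 b) (t38 b)
noncomputable def v39 (x1 x2 : ℝ) : ℝ := v37 x1 x2 - v38 x1 x2
theorem h39 (h : In b E x1 x2) : Enc S E (t39 b) (v39 x1 x2) := enc_sub (h37 h) (h38 h)

def t40 (b : Bx) : TM := tmul S (t36 b) (t39 b)
noncomputable def v40 (x1 x2 : ℝ) : ℝ := v36 x1 x2 * v39 x1 x2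
theorem h40 (h : In b E x1 x2) : Enc S E (t40 b) (v40 x1 x2) := enc_mul hS (h36 h) (h39 h)

def t41 (b : Bx) : TM := tsub (t24 b) (t3 b)
noncomputable def v41 (x1 x2 : ℝ) : ℝ := v24 x1 x2 - v3 x1 x2
theorem h41 (h : In b E x1 x2) : Enc S E (t41 b) (v41 x1 x2) := enc_sub (h24 h) (h3 h)

def t42 (b : Bx) : TM := tnat 4 (t41 b)
noncomputable def v42 (x1 x2 : ℝ) : ℝ := ((4 : ℕ) : ℝ) * v41 x1 x2
theorem h42 (h : In b E x1 x2) : Enc S E (t42 b) (v42 x1 x2) := enc_nat 4 (h41 h)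

def t43 (b : Bx) : TM := tinv S (t42 b)
noncomputable def v43 (x1 x2 : ℝ) : ℝ := (v42 x1 x2)⁻¹
theorem h43 (h : In b E x1 x2) : Enc S E (t43 b) (v43 x1 x2) := enc_inv hS (h42 h)

def t44 (b : Bx) : TM := tmul S (t40 b) (t43 b)
noncomputable def v44 (x1 x2 : ℝ) : ℝ := v40 x1 x2 * v43 x1 x2
theorem h44 (h : In b E x1 x2) : Enc S E (t44 b) (v44 x1 x2) := enc_mul hS (h40 h) (h43 h)

def t46 (b : Bx) : TM := tsq S (t25 b)
noncomputable def v46 (x1 x2 : ℝ) : ℝ := (v25 x1 x2) ^ 2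
theorem h46 (h : In b E x1 x2) : Enc S E (t46 b) (v46 x1 x2) := enc_sq hS (h25 h)

def t47 (b : Bx) : TM := tsq S (t26 b)
noncomputable def v47 (x1 x2 : ℝ) : ℝ := (v26 x1 x2) ^ 2
theorem h47 (h : In b E x1 x2) : Enc S E (t47 b) (v47 x1 x2) := enc_sq hS (h26 h)

def t48 (b : Bx) : TM := tadd (t46 b) (t47 b)
noncomputable def v48 (x1 x2 : ℝ) : ℝ := v46 x1 x2 + v47 x1 x2
theorem h48 (h : In b E x1 x2) : Enc S E (t48 b) (v48 x1 x2) := enc_add (h46 h) (h47 h)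

def t49 (b : Bx) : TM := tsub (t48 b) (t5 b)
noncomputable def v49 (x1 x2 : ℝ) : ℝ := v48 x1 x2 - v5 x1 x2
theorem h49 (h : In b E x1 x2) : Enc S E (t49 b) (v49 x1 x2) := enc_sub (h48 h) (h5 h)

def t50 (b : Bx) : TM := tneg (t5 b)
noncomputable def v50 (x1 x2 : ℝ) : ℝ := -(v5 x1 x2)
theorem h50 (h : In b E x1 x2) : Enc S E (t50 b) (v50 x1 x2) := enc_neg (h5 h)

def t52 (b : Bx) : TM := tsub (t18 b) (t7 b)
noncomputable def v52 (x1 x2 : ℝ) : ℝ := v18 x1 x2 - v7 x1 x2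
theorem h52 (h : In b E x1 x2) : Enc S E (t52 b) (v52 x1 x2) := enc_sub (h18 h) (h7 h)

def t54 (b : Bx) : TM := tadd (t25 b) (t52 b)
noncomputable def v54 (x1 x2 : ℝ) : ℝ := v25 x1 x2 + v52 x1 x2
theorem h54 (h : In b E x1 x2) : Enc S E (t54 b) (v54 x1 x2) := enc_add (h25 h) (h52 h)

def t57 (b : Bx) : TM := tadd (t1 b) (t18 b)
noncomputable def v57 (x1 x2 : ℝ) : ℝ := v1 x1 x2 + v18 x1 x2
theorem h57 (h : In b E x1 x2) : Enc S E (t57 b) (v57 x1 x2) := enc_add (h1 h) (h18 h)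

def t60 (b : Bx) : TM := tadd (t24 b) (t19 b)
noncomputable def v60 (x1 x2 : ℝ) : ℝ := v24 x1 x2 + v19 x1 x2
theorem h60 (h : In b E x1 x2) : Enc S E (t60 b) (v60 x1 x2) := enc_add (h24 h) (h19 h)

def t61 (b : Bx) : TM := tinv S (t60 b)
noncomputable def v61 (x1 x2 : ℝ) : ℝ := (v60 x1 x2)⁻¹
theorem h61 (h : In b E x1 x2) : Enc S E (t61 b) (v61 x1 x2) := enc_inv hS (h60 h)

def t62 (b : Bx) : TM := tmul S (t57 b) (t61 b)
noncomputable def v62 (x1 x2 : ℝ) : ℝ := v57 x1 x2 * v61 x1 x2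
theorem h62 (h : In b E x1 x2) : Enc S E (t62 b) (v62 x1 x2) := enc_mul hS (h57 h) (h61 h)

def t63 (b : Bx) : TM := tsub (t19 b) (t0 b)
noncomputable def v63 (x1 x2 : ℝ) : ℝ := v19 x1 x2 - v0 x1 x2
theorem h63 (h : In b E x1 x2) : Enc S E (t63 b) (v63 x1 x2) := enc_sub (h19 h) (h0 h)

def t65 (b : Bx) : TM := tadd (t26 b) (t63 b)
noncomputable def v65 (x1 x2 : ℝ) : ℝ := v26 x1 x2 + v63 x1 x2
theorem h65 (h : In b E x1 x2) : Enc S E (t65 b) (v65 x1 x2) := enc_add (h26 h) (h63 h)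

def t66 (b : Bx) : TM := tmul S (t62 b) (t65 b)
noncomputable def v66 (x1 x2 : ℝ) : ℝ := v62 x1 x2 * v65 x1 x2
theorem h66 (h : In b E x1 x2) : Enc S E (t66 b) (v66 x1 x2) := enc_mul hS (h62 h) (h65 h)

def t68 (b : Bx) : TM := tsub (t66 b) (t54 b)
noncomputable def v68 (x1 x2 : ℝ) : ℝ := v66 x1 x2 - v54 x1 x2
theorem h68 (h : In b E x1 x2) : Enc S E (t68 b) (v68 x1 x2) := enc_sub (h66 h) (h54 h)

def t70 (b : Bx) : TM := kx2_t (t25 b) (t26 b)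
noncomputable def v70 (x1 x2 : ℝ) : ℝ := kx2_v (v25 x1 x2) (v26 x1 x2)
theorem h70 (h : In b E x1 x2) : Enc S E (t70 b) (v70 x1 x2) := kx2_enc (h25 h) (h26 h)

def t71 (b : Bx) : TM := f2p_t (t26 b)
noncomputable def v71 (x1 x2 : ℝ) : ℝ := f2p_v (v26 x1 x2)
theorem h71 (h : In b E x1 x2) : Enc S E (t71 b) (v71 x1 x2) := f2p_enc (h26 h)

def t72 (b : Bx) : TM := tsub (t71 b) (t25 b)
noncomputable def v72 (x1 x2 : ℝ) : ℝ := v71 x1 x2 - v25 x1 x2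
theorem h72 (h : In b E x1 x2) : Enc S E (t72 b) (v72 x1 x2) := enc_sub (h71 h) (h25 h)

def t73 (b : Bx) : TM := tadd (t71 b) (t25 b)
noncomputable def v73 (x1 x2 : ℝ) : ℝ := v71 x1 x2 + v25 x1 x2
theorem h73 (h : In b E x1 x2) : Enc S E (t73 b) (v73 x1 x2) := enc_add (h71 h) (h25 h)

def t74 (b : Bx) : TM := tmul S (t49 b) (t70 b)
noncomputable def v74 (x1 x2 : ℝ) : ℝ := v49 x1 x2 * v70 x1 x2
theorem h74 (h : In b E x1 x2) : Enc S E (t74 b) (v74 x1 x2) := enc_mul hS (h49 h) (h70 h)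

def t75 (b : Bx) : TM := tadd (t25 b) (t74 b)
noncomputable def v75 (x1 x2 : ℝ) : ℝ := v25 x1 x2 + v74 x1 x2
theorem h75 (h : In b E x1 x2) : Enc S E (t75 b) (v75 x1 x2) := enc_add (h25 h) (h74 h)

def t76 (b : Bx) : TM := tmul S (t68 b) (t70 b)
noncomputable def v76 (x1 x2 : ℝ) : ℝ := v68 x1 x2 * v70 x1 x2
theorem h76 (h : In b E x1 x2) : Enc S E (t76 b) (v76 x1 x2) := enc_mul hS (h68 h) (h70 h)

def t77 (b : Bx) : TM := tsub (t76 b) (t5 b)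
noncomputable def v77 (x1 x2 : ℝ) : ℝ := v76 x1 x2 - v5 x1 x2
theorem h77 (h : In b E x1 x2) : Enc S E (t77 b) (v77 x1 x2) := enc_sub (h76 h) (h5 h)

def t78 (b : Bx) : TM := tmul S (t7 b) (t24 b)
noncomputable def v78 (x1 x2 : ℝ) : ℝ := v7 x1 x2 * v24 x1 x2
theorem h78 (h : In b E x1 x2) : Enc S E (t78 b) (v78 x1 x2) := enc_mul hS (h7 h) (h24 h)

def t79 (b : Bx) : TM := tmul S (t1 b) (t0 b)
noncomputable def v79 (x1 x2 : ℝ) : ℝ := v1 x1 x2 * v0 x1 x2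
theorem h79 (h : In b E x1 x2) : Enc S E (t79 b) (v79 x1 x2) := enc_mul hS (h1 h) (h0 h)

def t80 (b : Bx) : TM := tsub (t78 b) (t79 b)
noncomputable def v80 (x1 x2 : ℝ) : ℝ := v78 x1 x2 - v79 x1 x2
theorem h80 (h : In b E x1 x2) : Enc S E (t80 b) (v80 x1 x2) := enc_sub (h78 h) (h79 h)

def t81 (b : Bx) : TM := tinv S (t2 b)
noncomputable def v81 (x1 x2 : ℝ) : ℝ := (v2 x1 x2)⁻¹
theorem h81 (h : In b E x1 x2) : Enc S E (t81 b) (v81 x1 x2) := enc_inv hS (h2 h)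

def t82 (b : Bx) : TM := tmul S (t80 b) (t81 b)
noncomputable def v82 (x1 x2 : ℝ) : ℝ := v80 x1 x2 * v81 x1 x2
theorem h82 (h : In b E x1 x2) : Enc S E (t82 b) (v82 x1 x2) := enc_mul hS (h80 h) (h81 h)

def t83 (b : Bx) : TM := tsub (t82 b) (t9 b)
noncomputable def v83 (x1 x2 : ℝ) : ℝ := v82 x1 x2 - v9 x1 x2
theorem h83 (h : In b E x1 x2) : Enc S E (t83 b) (v83 x1 x2) := enc_sub (h82 h) (h9 h)

def t85 (b : Bx) : TM := tmul S (t7 b) (t62 b)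
noncomputable def v85 (x1 x2 : ℝ) : ℝ := v7 x1 x2 * v62 x1 x2
theorem h85 (h : In b E x1 x2) : Enc S E (t85 b) (v85 x1 x2) := enc_mul hS (h7 h) (h62 h)

def t89 (b : Bx) : TM := tadd (t85 b) (t0 b)
noncomputable def v89 (x1 x2 : ℝ) : ℝ := v85 x1 x2 + v0 x1 x2
theorem h89 (h : In b E x1 x2) : Enc S E (t89 b) (v89 x1 x2) := enc_add (h85 h) (h0 h)

def t91 (b : Bx) : TM := tmul S (t89 b) (t81 b)
noncomputable def v91 (x1 x2 : ℝ) : ℝ := v89 x1 x2 * v81 x1 x2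
theorem h91 (h : In b E x1 x2) : Enc S E (t91 b) (v91 x1 x2) := enc_mul hS (h89 h) (h81 h)

def t93 (b : Bx) : TM := tsub (t26 b) (t3 b)
noncomputable def v93 (x1 x2 : ℝ) : ℝ := v26 x1 x2 - v3 x1 x2
theorem h93 (h : In b E x1 x2) : Enc S E (t93 b) (v93 x1 x2) := enc_sub (h26 h) (h3 h)

def t106 (b : Bx) : TM := tsub (t63 b) (t3 b)
noncomputable def v106 (x1 x2 : ℝ) : ℝ := v63 x1 x2 - v3 x1 x2
theorem h106 (h : In b E x1 x2) : Enc S E (t106 b) (v106 x1 x2) := enc_sub (h63 h) (h3 h)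

def t107 (b : Bx) : TM := tmul S (t0 b) (t77 b)
noncomputable def v107 (x1 x2 : ℝ) : ℝ := v0 x1 x2 * v77 x1 x2
theorem h107 (h : In b E x1 x2) : Enc S E (t107 b) (v107 x1 x2) := enc_mul hS (h0 h) (h77 h)

def t108 (b : Bx) : TM := tmul S (t62 b) (t34 b)
noncomputable def v108 (x1 x2 : ℝ) : ℝ := v62 x1 x2 * v34 x1 x2
theorem h108 (h : In b E x1 x2) : Enc S E (t108 b) (v108 x1 x2) := enc_mul hS (h62 h) (h34 h)

def t109 (b : Bx) : TM := tsub (t107 b) (t108 b)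
noncomputable def v109 (x1 x2 : ℝ) : ℝ := v107 x1 x2 - v108 x1 x2
theorem h109 (h : In b E x1 x2) : Enc S E (t109 b) (v109 x1 x2) := enc_sub (h107 h) (h108 h)

def t110 (b : Bx) : TM := tmul S (t2 b) (t18 b)
noncomputable def v110 (x1 x2 : ℝ) : ℝ := v2 x1 x2 * v18 x1 x2
theorem h110 (h : In b E x1 x2) : Enc S E (t110 b) (v110 x1 x2) := enc_mul hS (h2 h) (h18 h)

def t111 (b : Bx) : TM := tneg (t2 b)
noncomputable def v111 (x1 x2 : ℝ) : ℝ := -(v2 x1 x2)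
theorem h111 (h : In b E x1 x2) : Enc S E (t111 b) (v111 x1 x2) := enc_neg (h2 h)

def t112 (b : Bx) : TM := tsub (t110 b) (t19 b)
noncomputable def v112 (x1 x2 : ℝ) : ℝ := v110 x1 x2 - v19 x1 x2
theorem h112 (h : In b E x1 x2) : Enc S E (t112 b) (v112 x1 x2) := enc_sub (h110 h) (h19 h)

def t113 (b : Bx) : TM := tsub (t111 b) (t62 b)
noncomputable def v113 (x1 x2 : ℝ) : ℝ := v111 x1 x2 - v62 x1 x2
theorem h113 (h : In b E x1 x2) : Enc S E (t113 b) (v113 x1 x2) := enc_sub (h111 h) (h62 h)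

def t114 (b : Bx) : TM := tadd (t18 b) (t22 b)
noncomputable def v114 (x1 x2 : ℝ) : ℝ := v18 x1 x2 + v22 x1 x2
theorem h114 (h : In b E x1 x2) : Enc S E (t114 b) (v114 x1 x2) := enc_add (h18 h) (h22 h)

def t115 (b : Bx) : TM := tmul S (t2 b) (t19 b)
noncomputable def v115 (x1 x2 : ℝ) : ℝ := v2 x1 x2 * v19 x1 x2
theorem h115 (h : In b E x1 x2) : Enc S E (t115 b) (v115 x1 x2) := enc_mul hS (h2 h) (h19 h)

def t116 (b : Bx) : TM := tmul S (t2 b) (t62 b)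
noncomputable def v116 (x1 x2 : ℝ) : ℝ := v2 x1 x2 * v62 x1 x2
theorem h116 (h : In b E x1 x2) : Enc S E (t116 b) (v116 x1 x2) := enc_mul hS (h2 h) (h62 h)

def t117 (b : Bx) : TM := tsub (t114 b) (t115 b)
noncomputable def v117 (x1 x2 : ℝ) : ℝ := v114 x1 x2 - v115 x1 x2
theorem h117 (h : In b E x1 x2) : Enc S E (t117 b) (v117 x1 x2) := enc_sub (h114 h) (h115 h)

def t118 (b : Bx) : TM := tsub (t50 b) (t116 b)
noncomputable def v118 (x1 x2 : ℝ) : ℝ := v50 x1 x2 - v116 x1 x2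
theorem h118 (h : In b E x1 x2) : Enc S E (t118 b) (v118 x1 x2) := enc_sub (h50 h) (h116 h)

def t119 (b : Bx) : TM := tmul S (t112 b) (t117 b)
noncomputable def v119 (x1 x2 : ℝ) : ℝ := v112 x1 x2 * v117 x1 x2
theorem h119 (h : In b E x1 x2) : Enc S E (t119 b) (v119 x1 x2) := enc_mul hS (h112 h) (h117 h)

def t120 (b : Bx) : TM := tmul S (t113 b) (t39 b)
noncomputable def v120 (x1 x2 : ℝ) : ℝ := v113 x1 x2 * v39 x1 x2
theorem h120 (h : In b E x1 x2) : Enc S E (t120 b) (v120 x1 x2) := enc_mul hS (h113 h) (h39 h)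

def t121 (b : Bx) : TM := tmul S (t112 b) (t118 b)
noncomputable def v121 (x1 x2 : ℝ) : ℝ := v112 x1 x2 * v118 x1 x2
theorem h121 (h : In b E x1 x2) : Enc S E (t121 b) (v121 x1 x2) := enc_mul hS (h112 h) (h118 h)

def t122 (b : Bx) : TM := tadd (t120 b) (t121 b)
noncomputable def v122 (x1 x2 : ℝ) : ℝ := v120 x1 x2 + v121 x1 x2
theorem h122 (h : In b E x1 x2) : Enc S E (t122 b) (v122 x1 x2) := enc_add (h120 h) (h121 h)

def t123 (b : Bx) : TM := tsub (t19 b) (t3 b)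
noncomputable def v123 (x1 x2 : ℝ) : ℝ := v19 x1 x2 - v3 x1 x2
theorem h123 (h : In b E x1 x2) : Enc S E (t123 b) (v123 x1 x2) := enc_sub (h19 h) (h3 h)

def t124 (b : Bx) : TM := tnat 4 (t123 b)
noncomputable def v124 (x1 x2 : ℝ) : ℝ := ((4 : ℕ) : ℝ) * v123 x1 x2
theorem h124 (h : In b E x1 x2) : Enc S E (t124 b) (v124 x1 x2) := enc_nat 4 (h123 h)

def t125 (b : Bx) : TM := tnat 4 (t62 b)
noncomputable def v125 (x1 x2 : ℝ) : ℝ := ((4 : ℕ) : ℝ) * v62 x1 x2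
theorem h125 (h : In b E x1 x2) : Enc S E (t125 b) (v125 x1 x2) := enc_nat 4 (h62 h)

def t126 (b : Bx) : TM := tinv S (t124 b)
noncomputable def v126 (x1 x2 : ℝ) : ℝ := (v124 x1 x2)⁻¹
theorem h126 (h : In b E x1 x2) : Enc S E (t126 b) (v126 x1 x2) := enc_inv hS (h124 h)

def t127 (b : Bx) : TM := tmul S (t43 b) (t126 b)
noncomputable def v127 (x1 x2 : ℝ) : ℝ := v43 x1 x2 * v126 x1 x2
theorem h127 (h : In b E x1 x2) : Enc S E (t127 b) (v127 x1 x2) := enc_mul hS (h43 h) (h126 h)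

def t128 (b : Bx) : TM := tmul S (t125 b) (t127 b)
noncomputable def v128 (x1 x2 : ℝ) : ℝ := v125 x1 x2 * v127 x1 x2
theorem h128 (h : In b E x1 x2) : Enc S E (t128 b) (v128 x1 x2) := enc_mul hS (h125 h) (h127 h)

def t131 (b : Bx) : TM := tmul S (t122 b) (t43 b)
noncomputable def v131 (x1 x2 : ℝ) : ℝ := v122 x1 x2 * v43 x1 x2
theorem h131 (h : In b E x1 x2) : Enc S E (t131 b) (v131 x1 x2) := enc_mul hS (h122 h) (h43 h)

def t132 (b : Bx) : TM := tmul S (t119 b) (t128 b)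
noncomputable def v132 (x1 x2 : ℝ) : ℝ := v119 x1 x2 * v128 x1 x2
theorem h132 (h : In b E x1 x2) : Enc S E (t132 b) (v132 x1 x2) := enc_mul hS (h119 h) (h128 h)

def t136 (b : Bx) : TM := tsub (t132 b) (t131 b)
noncomputable def v136 (x1 x2 : ℝ) : ℝ := v132 x1 x2 - v131 x1 x2
theorem h136 (h : In b E x1 x2) : Enc S E (t136 b) (v136 x1 x2) := enc_sub (h132 h) (h131 h)

def t137 (b : Bx) : TM := tsub (t19 b) (t2 b)
noncomputable def v137 (x1 x2 : ℝ) : ℝ := v19 x1 x2 - v2 x1 x2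
theorem h137 (h : In b E x1 x2) : Enc S E (t137 b) (v137 x1 x2) := enc_sub (h19 h) (h2 h)

def t138 (b : Bx) : TM := tmul S (t62 b) (t75 b)
noncomputable def v138 (x1 x2 : ℝ) : ℝ := v62 x1 x2 * v75 x1 x2
theorem h138 (h : In b E x1 x2) : Enc S E (t138 b) (v138 x1 x2) := enc_mul hS (h62 h) (h75 h)

def t139 (b : Bx) : TM := tmul S (t137 b) (t77 b)
noncomputable def v139 (x1 x2 : ℝ) : ℝ := v137 x1 x2 * v77 x1 x2
theorem h139 (h : In b E x1 x2) : Enc S E (t139 b) (v139 x1 x2) := enc_mul hS (h137 h) (h77 h)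

def t140 (b : Bx) : TM := tadd (t138 b) (t139 b)
noncomputable def v140 (x1 x2 : ℝ) : ℝ := v138 x1 x2 + v139 x1 x2
theorem h140 (h : In b E x1 x2) : Enc S E (t140 b) (v140 x1 x2) := enc_add (h138 h) (h139 h)

def t141 (b : Bx) : TM := tmul S (t62 b) (t44 b)
noncomputable def v141 (x1 x2 : ℝ) : ℝ := v62 x1 x2 * v44 x1 x2
theorem h141 (h : In b E x1 x2) : Enc S E (t141 b) (v141 x1 x2) := enc_mul hS (h62 h) (h44 h)

def t143 (b : Bx) : TM := tadd (t140 b) (t141 b)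
noncomputable def v143 (x1 x2 : ℝ) : ℝ := v140 x1 x2 + v141 x1 x2
theorem h143 (h : In b E x1 x2) : Enc S E (t143 b) (v143 x1 x2) := enc_add (h140 h) (h141 h)

def t144 (b : Bx) : TM := tmul S (t106 b) (t136 b)
noncomputable def v144 (x1 x2 : ℝ) : ℝ := v106 x1 x2 * v136 x1 x2
theorem h144 (h : In b E x1 x2) : Enc S E (t144 b) (v144 x1 x2) := enc_mul hS (h106 h) (h136 h)

def t145 (b : Bx) : TM := tsub (t143 b) (t144 b)
noncomputable def v145 (x1 x2 : ℝ) : ℝ := v143 x1 x2 - v144 x1 x2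
theorem h145 (h : In b E x1 x2) : Enc S E (t145 b) (v145 x1 x2) := enc_sub (h143 h) (h144 h)

def t146 (b : Bx) : TM := tmul S (t0 b) (t136 b)
noncomputable def v146 (x1 x2 : ℝ) : ℝ := v0 x1 x2 * v136 x1 x2
theorem h146 (h : In b E x1 x2) : Enc S E (t146 b) (v146 x1 x2) := enc_mul hS (h0 h) (h136 h)

def t147 (b : Bx) : TM := tsub (t146 b) (t108 b)
noncomputable def v147 (x1 x2 : ℝ) : ℝ := v146 x1 x2 - v108 x1 x2
theorem h147 (h : In b E x1 x2) : Enc S E (t147 b) (v147 x1 x2) := enc_sub (h146 h) (h108 h)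

def t148 (b : Bx) : TM := tsub (t2 b) (t24 b)
noncomputable def v148 (x1 x2 : ℝ) : ℝ := v2 x1 x2 - v24 x1 x2
theorem h148 (h : In b E x1 x2) : Enc S E (t148 b) (v148 x1 x2) := enc_sub (h2 h) (h24 h)

def t149 (b : Bx) : TM := qw_t (t0 b) (t93 b) (t148 b) (t91 b) (t109 b) (t145 b) (t147 b)
noncomputable def v149 (x1 x2 : ℝ) : ℝ := qw_v (v0 x1 x2) (v93 x1 x2) (v148 x1 x2) (v91 x1 x2) (v109 x1 x2) (v145 x1 x2) (v147 x1 x2)
theorem h149 (h : In b E x1 x2) : Enc S E (t149 b) (v149 x1 x2) := qw_enc (h0 h) (h93 h) (h148 h) (h91 h) (h109 h) (h145 h) (h147 h)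

def t150 (b : Bx) : TM := tscale 1 4 (t2 b)
noncomputable def v150 (x1 x2 : ℝ) : ℝ := ((1 : ℕ) : ℝ) / ((4 : ℕ) : ℝ) * v2 x1 x2
theorem h150 (h : In b E x1 x2) : Enc S E (t150 b) (v150 x1 x2) := enc_scale 1 (by norm_num) (h2 h)

def t152 (b : Bx) : TM := tsub (t0 b) (t150 b)
noncomputable def v152 (x1 x2 : ℝ) : ℝ := v0 x1 x2 - v150 x1 x2
theorem h152 (h : In b E x1 x2) : Enc S E (t152 b) (v152 x1 x2) := enc_sub (h0 h) (h150 h)

def t153 (b : Bx) : TM := tsub (t3 b) (t26 b)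
noncomputable def v153 (x1 x2 : ℝ) : ℝ := v3 x1 x2 - v26 x1 x2
theorem h153 (h : In b E x1 x2) : Enc S E (t153 b) (v153 x1 x2) := enc_sub (h3 h) (h26 h)

def t154 (b : Bx) : TM := tscale 3 4 (t2 b)
noncomputable def v154 (x1 x2 : ℝ) : ℝ := ((3 : ℕ) : ℝ) / ((4 : ℕ) : ℝ) * v2 x1 x2
theorem h154 (h : In b E x1 x2) : Enc S E (t154 b) (v154 x1 x2) := enc_scale 3 (by norm_num) (h2 h)

def t156 (b : Bx) : TM := tsub (t26 b) (t154 b)
noncomputable def v156 (x1 x2 : ℝ) : ℝ := v26 x1 x2 - v154 x1 x2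
theorem h156 (h : In b E x1 x2) : Enc S E (t156 b) (v156 x1 x2) := enc_sub (h26 h) (h154 h)

def t158 (b : Bx) : TM := tsub (t154 b) (t24 b)
noncomputable def v158 (x1 x2 : ℝ) : ℝ := v154 x1 x2 - v24 x1 x2
theorem h158 (h : In b E x1 x2) : Enc S E (t158 b) (v158 x1 x2) := enc_sub (h154 h) (h24 h)

def t159 (_b : Bx) : TM := tconst (Nat.div (Nat.mul 1 S) 16) 0 1
noncomputable def v159 (_x1 _x2 : ℝ) : ℝ := ((1 : ℕ) : ℝ) / ((16 : ℕ) : ℝ)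
theorem h159 (_h : In b E x1 x2) : Enc S E (t159 b) (v159 x1 x2) := enc_rat E 1 (by norm_num)

def t160 (b : Bx) : TM := tsub (t27 b) (t159 b)
noncomputable def v160 (x1 x2 : ℝ) : ℝ := v27 x1 x2 - v159 x1 x2
theorem h160 (h : In b E x1 x2) : Enc S E (t160 b) (v160 x1 x2) := enc_sub (h27 h) (h159 h)

def t161 (b : Bx) : TM := tsub (t20 b) (t159 b)
noncomputable def v161 (x1 x2 : ℝ) : ℝ := v20 x1 x2 - v159 x1 x2
theorem h161 (h : In b E x1 x2) : Enc S E (t161 b) (v161 x1 x2) := enc_sub (h20 h) (h159 h)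

def t162 (b : Bx) : TM := tsub (t0 b) (t24 b)
noncomputable def v162 (x1 x2 : ℝ) : ℝ := v0 x1 x2 - v24 x1 x2
theorem h162 (h : In b E x1 x2) : Enc S E (t162 b) (v162 x1 x2) := enc_sub (h0 h) (h24 h)

def t163 (b : Bx) : TM := tsub (t5 b) (t48 b)
noncomputable def v163 (x1 x2 : ℝ) : ℝ := v5 x1 x2 - v48 x1 x2
theorem h163 (h : In b E x1 x2) : Enc S E (t163 b) (v163 x1 x2) := enc_sub (h5 h) (h48 h)

def t164 (b : Bx) : TM := tadd (t83 b) (t9 b)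
noncomputable def v164 (x1 x2 : ℝ) : ℝ := v83 x1 x2 + v9 x1 x2
theorem h164 (h : In b E x1 x2) : Enc S E (t164 b) (v164 x1 x2) := enc_add (h83 h) (h9 h)

def t165 (b : Bx) : TM := tneg (t164 b)
noncomputable def v165 (x1 x2 : ℝ) : ℝ := -(v164 x1 x2)
theorem h165 (h : In b E x1 x2) : Enc S E (t165 b) (v165 x1 x2) := enc_neg (h164 h)

def g0 (b : Bx) : Bool := and (pos (t68 b)) (and (pos (t23 b)) (and (pos (t60 b)) (and (pos (t72 b)) (and (pos (t73 b)) (and (pos (t42 b)) (and (pos (t124 b)) (and (pos (t32 b)) (or (pos (t20 b)) (pos (t149 b))))))))))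

def l0 (b : Bx) : Nat := cond (g0 b) 0 (pickb 1 (t149 b) b)

def P0 (x1 x2 : ℝ) : Prop := 0 < v68 x1 x2 ∧ 0 < v23 x1 x2 ∧ 0 < v60 x1 x2 ∧ 0 < v72 x1 x2 ∧ 0 < v73 x1 x2 ∧ 0 < v42 x1 x2 ∧ 0 < v124 x1 x2 ∧ 0 < v32 x1 x2 ∧ (0 < v20 x1 x2 ∨ 0 < v149 x1 x2)

theorem l0_sound (h : In b E x1 x2) (e : l0 b = 0) : P0 x1 x2 := by
  have e1 : g0 b = true := by
    rcases e2 : g0 b with _ | _
    · unfold l0 at e; rw [e2, cond_false] at e; exact absurd e (pickb_ne _ _ _)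
    · rfl
  exact ⟨pos_sound hS (h68 h) (Bool.and_eq_true_iff.mp e1).1, ⟨pos_sound hS (h23 h) (Bool.and_eq_true_iff.mp (Bool.and_eq_true_iff.mp e1).2).1, ⟨pos_sound hS (h60 h) (Bool.and_eq_true_iff.mp (Bool.and_eq_true_iff.mp (Bool.and_eq_true_iff.mp e1).2).2).1, ⟨pos_sound hS (h72 h) (Bool.and_eq_true_iff.mp (Bool.and_eq_true_iff.mp (Bool.and_eq_true_iff.mp (Bool.and_eq_true_iff.mp e1).2).2).2).1, ⟨pos_sound hS (h73 h) (Bool.and_eq_true_iff.mp (Bool.and_eq_true_iff.mp (Bool.and_eq_true_iff.mp (Bool.and_eq_true_iff.mp (Bool.and_eq_true_iff.mp e1).2).2).2).2).1, ⟨pos_sound hS (h42 h) (Bool.and_eq_true_iff.mp (Bool.and_eq_true_iff.mp (Bool.and_eq_true_iff.mp (Bool.and_eq_true_iff.mp (Bool.and_eq_true_iff.mp (Bool.and_eq_true_iff.mp e1).2).2).2).2).2).1, ⟨pos_sound hS (h124 h) (Bool.and_eq_true_iff.mp (Bool.and_eq_true_iff.mp (Bool.and_eq_true_iff.mp (Bool.and_eq_true_iff.mp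 (Bool.and_eq_true_iff.mp (Bool.and_eq_true_iff.mp (Bool.and_eq_true_iff.mp e1).2).2).2).2).2).2).1, ⟨pos_sound hS (h32 h) (Bool.and_eq_true_iff.mp (Bool.and_eq_true_iff.mp (Bool.and_eq_true_iff.mp (Bool.and_eq_true_iff.mp (Bool.and_eq_true_iff.mp (Bool.and_eq_true_iff.mp (Bool.and_eq_true_iff.mp (Bool.and_eq_true_iff.mp e1).2).2).2).2).2).2).2).1, ((Bool.or_eq_true_iff.mp (Bool.and_eq_true_iff.mp (Bool.and_eq_true_iff.mp (Bool.and_eq_true_iff.mp (Bool.and_eq_true_iff.mp (Bool.and_eq_true_iff.mp (Bool.and_eq_true_iff.mp (Bool.and_eq_true_iff.mp (Bool.and_eq_true_iff.mp e1).2).2).2).2).2).2).2).2).imp (fun a => pos_sound hS (h20 h) a) (fun a => pos_sound hS (h149 h) a))⟩⟩⟩⟩⟩⟩⟩⟩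

def g1 (b : Bx) : Bool := or (pos (t152 b)) (or (pos (t153 b)) (or (pos (t156 b)) (or (pos (t158 b)) (or (pos (t160 b)) (or (pos (t161 b)) (or (pos (t162 b)) (or (pos (t163 b)) (pos (t165 b)))))))))

def l1 (b : Bx) : Nat := cond (g1 b) 0 (l0 b)

def P1 (x1 x2 : ℝ) : Prop := (0 < v152 x1 x2 ∨ 0 < v153 x1 x2 ∨ 0 < v156 x1 x2 ∨ 0 < v158 x1 x2 ∨ 0 < v160 x1 x2 ∨ 0 < v161 x1 x2 ∨ 0 < v162 x1 x2 ∨ 0 < v163 x1 x2 ∨ 0 < v165 x1 x2) ∨ (P0 x1 x2)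

theorem l1_sound (h : In b E x1 x2) (e : l1 b = 0) : P1 x1 x2 := by
  unfold l1 at e
  rcases e1 : g1 b with _ | _
  · rw [e1, cond_false] at e
    have z0 : l0 b = 0 := e
    exact Or.inr (l0_sound h z0)
  · exact Or.inl (((Bool.or_eq_true_iff.mp e1).imp (fun a => pos_sound hS (h152 h) a) (fun a => ((Bool.or_eq_true_iff.mp a).imp (fun a => pos_sound hS (h153 h) a) (fun a => ((Bool.or_eq_true_iff.mp a).imp (fun a => pos_sound hS (h156 h) a) (fun a => ((Bool.or_eq_true_iff.mp a).imp (fun a => pos_sound hS (h158 h) a) (fun a => ((Bool.or_eq_true_iff.mp a).imp (fun a => pos_sound hS (h160 h) a) (fun a => ((Bool.or_eq_true_iff.mp a).imp (fun a => pos_sound hS (h161 h) a) (fun a => ((Bool.or_eq_true_iff.mp a).imp (fun a => pos_sound hS (h162 h) a) (fun a => ((Bool.or_eq_true_iff.mp a).imp (fun a => pos_sound hS (h163 h) a) (fun a => pos_sound hS (h165 h) a)))))))))))))))))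

def f (b : Bx) : Nat := l1 b

/-- the statement -/
def Q (x1 x2 : ℝ) : Prop := P1 x1 x2

theorem f_sound (b : Bx) (hb : f b = 0) (x1 x2 : ℝ) (hm : Mem S b x1 x2) : Q x1 x2 := by
  obtain ⟨E, h⟩ := pt_of_mem hm
  have h : In b E x1 x2 := h
  unfold f at hb
  have e := hb
  have z1 : l1 b = 0 := e
  exact (l1_sound h z1)

/-- the box -/
def b0 : Bx := ⟨232471924, 0, 232471926, 615093004, 0, 615093005⟩

theorem chk_all {n : ℕ} {b : Bx} (h : chk f n b = true) (x1 x2 : ℝ) (hm : Mem S b x1 x2) : Q x1 x2 :=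
  chk_sound (fun b hb x1 x2 hm => f_sound b hb x1 x2 hm) n b h x1 x2 hm


end Pool.Agent.Strip051.LB.ChB03V1_pp_023
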