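import Pool.Agent.Strip051.LB.ChB03V1_pp_023.Defs
import Pool.Agent.Strip051.LB.Slope
import Pool.Agent.Strip051.LB.Star
import Pool.Agent.Strip051.LB.Cf

/-! # LINE tight chart ChB03V1_pp_023: slopes -/

namespace Pool.Agent.Strip051.LB.ChB03V1_pp_023

open Pool.Agent.Strip051.LB Pool.Agent.Strip051.LB.Fn Pool.Agent.Strip051.LB.Fc Pool.Agent.StripNear

set_option maxRecDepth 100000
set_option linter.all false

noncomputable def v45 (x1 x2 : ℝ) : ℝ := -(v44 x1 x2)

noncomputable def v53 (x1 x2 : ℝ) : ℝ := (v52 x1 x2) ^ 2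

noncomputable def v55 (x1 x2 : ℝ) : ℝ := -(v54 x1 x2)

noncomputable def v56 (x1 x2 : ℝ) : ℝ := (v18 x1 x2) ^ 2

noncomputable def v58 (x1 x2 : ℝ) : ℝ := -(v57 x1 x2)

noncomputable def v59 (x1 x2 : ℝ) : ℝ := v22 x1 x2 - v56 x1 x2

noncomputable def v64 (x1 x2 : ℝ) : ℝ := (v63 x1 x2) ^ 2

noncomputable def v67 (x1 x2 : ℝ) : ℝ := v53 x1 x2 + v64 x1 x2

noncomputable def v69 (x1 x2 : ℝ) : ℝ := v67 x1 x2 - v5 x1 x2

noncomputable def v84 (x1 x2 : ℝ) : ℝ := v7 x1 x2 * v19 x1 x2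

noncomputable def v86 (x1 x2 : ℝ) : ℝ := v18 x1 x2 * v0 x1 x2

noncomputable def v87 (x1 x2 : ℝ) : ℝ := -(v0 x1 x2)

noncomputable def v88 (x1 x2 : ℝ) : ℝ := v84 x1 x2 - v86 x1 x2

noncomputable def v90 (x1 x2 : ℝ) : ℝ := v88 x1 x2 * v81 x1 x2

noncomputable def v92 (x1 x2 : ℝ) : ℝ := v90 x1 x2 - v9 x1 x2

noncomputable def v94 (x1 x2 : ℝ) : ℝ := v24 x1 x2 - v2 x1 x2

noncomputable def v129 (x1 x2 : ℝ) : ℝ := -(v128 x1 x2)

noncomputable def v130 (x1 x2 : ℝ) : ℝ := v119 x1 x2 * v126 x1 x2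

noncomputable def v134 (x1 x2 : ℝ) : ℝ := v131 x1 x2 - v132 x1 x2

noncomputable def v135 (x1 x2 : ℝ) : ℝ := -(v130 x1 x2)

structure Cx (x1 x2 : ℝ) : Prop where
  hc : v7 x1 x2 ^ 2 + x1 ^ 2 = 1
  p23 : 0 < v23 x1 x2
  p60 : 0 < v60 x1 x2
  p72 : 0 < v72 x1 x2
  p73 : 0 < v73 x1 x2
  p42 : 0 < v42 x1 x2
  p124 : 0 < v124 x1 x2
  p32 : 0 < v32 x1 x2

variable {x1 x2 : ℝ}

theorem s3q (x1 x2 : ℝ) : v2 x1 x2 ^ 2 = 3 := by
  rw [v2]; exact s3sq

theorem s3ne (x1 x2 : ℝ) : v2 x1 x2 ≠ 0 := by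
  rw [v2]; positivity

theorem s1 (c : Cx x1 x2) : v1 x1 x2 = v18 x1 x2 + v27 x1 x2 * v50 x1 x2 := by
  simp only [v1, v5, v27, v50]
  (try push_cast)
  first | ring | grind

theorem s21 (c : Cx x1 x2) : v21 x1 x2 = v56 x1 x2 + v27 x1 x2 * v58 x1 x2 := by
  have a0 : (v1 x1 x2 + v18 x1 x2) * v1 x1 x2 = (v1 x1 x2 + v18 x1 x2) * (v18 x1 x2 + v27 x1 x2 * v50 x1 x2) := congrArg (fun z => (v1 x1 x2 + v18 x1 x2) * z) (s1 c)
  try simp only [v1, v5, v21, v27, v50, v56, v57, v58] at a0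
  simp only [v1, v5, v21, v27, v50, v56, v57, v58]
  (try push_cast at a0 ⊢)
  first | linear_combination a0 | ring | grind

theorem s23 (c : Cx x1 x2) : v23 x1 x2 = v59 x1 x2 + v27 x1 x2 * v57 x1 x2 := by
  have a1 := s21 c
  try simp only [v1, v22, v23, v27, v57, v58, v59] at a1
  simp only [v1, v22, v23, v27, v57, v58, v59]
  (try push_cast at a1 ⊢)
  first | linear_combination -a1 | ring | grind

theorem q24 (c : Cx x1 x2) : v59 x1 x2 = v19 x1 x2 ^ 2 := by
  have hc := c.hc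
  have h3 := s3q x1 x2
  simp only [v0, v3, v10, v11, v13, v14, v16, v17, v18, v19, v22, v56, v59] at hc ⊢
  push_cast at hc ⊢
  grind

theorem s24 (c : Cx x1 x2) : v24 x1 x2 = v19 x1 x2 + v27 x1 x2 * v62 x1 x2 := by
  have a0 := s23 c
  have e : 0 < Real.sqrt (v23 x1 x2) + v19 x1 x2 := by
    have e := c.p60
    simp only [v22, v23, v24, v60] at e ⊢
    push_cast at e ⊢
    linarith
  have b := sl_sqrt a0 (q24 c) (le_of_lt c.p23) e
  clear a0
  try simp only [v1, v22, v23, v24, v27, v57, v59, v60, v61, v62] at b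
  simp only [v1, v22, v23, v24, v27, v57, v59, v60, v61, v62]
  (try push_cast at b ⊢)
  first | linear_combination b | ring | grind

theorem s25 (c : Cx x1 x2) : v25 x1 x2 = v52 x1 x2 + v27 x1 x2 * v50 x1 x2 := by
  have a0 := s1 c
  try simp only [v1, v5, v25, v27, v50, v52] at a0
  simp only [v1, v5, v25, v27, v50, v52]
  (try push_cast at a0 ⊢)
  first | linear_combination a0 | ring | grind

theorem s26 (c : Cx x1 x2) : v26 x1 x2 = v63 x1 x2 + v27 x1 x2 * v62 x1 x2 := by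
  have a0 := s24 c
  try simp only [v0, v1, v26, v27, v63] at a0
  simp only [v0, v1, v26, v27, v63]
  (try push_cast at a0 ⊢)
  first | linear_combination a0 | ring | grind

theorem s35 (c : Cx x1 x2) : v35 x1 x2 = v110 x1 x2 + v27 x1 x2 * v111 x1 x2 := by
  have a1 : (v2 x1 x2) * v1 x1 x2 = (v2 x1 x2) * (v18 x1 x2 + v27 x1 x2 * v50 x1 x2) := congrArg (fun z => (v2 x1 x2) * z) (s1 c)
  try simp only [v1, v2, v5, v27, v35, v50, v110, v111] at a1
  simp only [v1, v2, v5, v27, v35, v50, v110, v111]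
  (try push_cast at a1 ⊢)
  first | linear_combination a1 | ring | grind

theorem s36 (c : Cx x1 x2) : v36 x1 x2 = v112 x1 x2 + v27 x1 x2 * v113 x1 x2 := by
  have a0 := s35 c
  have a1 := s24 c
  try simp only [v1, v2, v27, v36, v111, v112, v113] at a0
  try simp only [v1, v2, v27, v36, v111, v112, v113] at a1
  simp only [v1, v2, v27, v36, v111, v112, v113]
  (try push_cast at a0 a1 ⊢)
  first | linear_combination a0 - a1 | ring | grind

theorem s37 (c : Cx x1 x2) : v37 x1 x2 = v114 x1 x2 + v27 x1 x2 * v50 x1 x2 := by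
  have a0 := s1 c
  try simp only [v1, v5, v22, v27, v37, v50, v114] at a0
  simp only [v1, v5, v22, v27, v37, v50, v114]
  (try push_cast at a0 ⊢)
  first | linear_combination a0 | ring | grind

theorem s38 (c : Cx x1 x2) : v38 x1 x2 = v115 x1 x2 + v27 x1 x2 * v116 x1 x2 := by
  have a1 : (v2 x1 x2) * v24 x1 x2 = (v2 x1 x2) * (v19 x1 x2 + v27 x1 x2 * v62 x1 x2) := congrArg (fun z => (v2 x1 x2) * z) (s24 c)
  try simp only [v1, v2, v27, v38, v115, v116] at a1
  simp only [v1, v2, v27, v38, v115, v116]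
  (try push_cast at a1 ⊢)
  first | linear_combination a1 | ring | grind

theorem s39 (c : Cx x1 x2) : v39 x1 x2 = v117 x1 x2 + v27 x1 x2 * v118 x1 x2 := by
  have a0 := s37 c
  have a1 := s38 c
  try simp only [v1, v5, v22, v27, v37, v39, v50, v114, v117, v118] at a0
  try simp only [v1, v5, v22, v27, v37, v39, v50, v114, v117, v118] at a1
  simp only [v1, v5, v22, v27, v37, v39, v50, v114, v117, v118]
  (try push_cast at a0 a1 ⊢)
  first | linear_combination a0 - a1 | ring | grind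

theorem s40 (c : Cx x1 x2) : v40 x1 x2 = v119 x1 x2 + v27 x1 x2 * v122 x1 x2 := by
  have a0 : (v39 x1 x2) * v36 x1 x2 = (v39 x1 x2) * (v112 x1 x2 + v27 x1 x2 * v113 x1 x2) := congrArg (fun z => (v39 x1 x2) * z) (s36 c)
  have a1 : (v112 x1 x2) * v39 x1 x2 = (v112 x1 x2) * (v117 x1 x2 + v27 x1 x2 * v118 x1 x2) := congrArg (fun z => (v112 x1 x2) * z) (s39 c)
  try simp only [v1, v2, v5, v22, v27, v36, v37, v39, v40, v50, v111, v112, v113, v114, v117, v118, v119, v120, v121, v122] at a0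
  try simp only [v1, v2, v5, v22, v27, v36, v37, v39, v40, v50, v111, v112, v113, v114, v117, v118, v119, v120, v121, v122] at a1
  simp only [v1, v2, v5, v22, v27, v36, v37, v39, v40, v50, v111, v112, v113, v114, v117, v118, v119, v120, v121, v122]
  (try push_cast at a0 a1 ⊢)
  first | linear_combination a0 + a1 | ring | grind

theorem s41 (c : Cx x1 x2) : v41 x1 x2 = v123 x1 x2 + v27 x1 x2 * v62 x1 x2 := by
  have a0 := s24 c
  try simp only [v1, v2, v3, v27, v41, v123] at a0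
  simp only [v1, v2, v3, v27, v41, v123]
  (try push_cast at a0 ⊢)
  first | linear_combination a0 | ring | grind

theorem s42 (c : Cx x1 x2) : v42 x1 x2 = v124 x1 x2 + v27 x1 x2 * v125 x1 x2 := by
  have a0 := s41 c
  try simp only [v1, v2, v3, v27, v41, v42, v123, v124, v125] at a0
  simp only [v1, v2, v3, v27, v41, v42, v123, v124, v125]
  (try push_cast at a0 ⊢)
  first | linear_combination (4 : ℝ) * a0 | ring | grind

theorem s43 (c : Cx x1 x2) : v43 x1 x2 = v126 x1 x2 + v27 x1 x2 * v129 x1 x2 := by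
  have a0 := s42 c
  have b := sl_inv a0 (c.p42).ne' (c.p124).ne'
  clear a0
  try simp only [v1, v2, v3, v27, v41, v42, v43, v123, v124, v125, v126, v127, v128, v129] at b
  simp only [v1, v2, v3, v27, v41, v42, v43, v123, v124, v125, v126, v127, v128, v129]
  (try push_cast at b ⊢)
  first | linear_combination b | ring | grind

theorem s44 (c : Cx x1 x2) : v44 x1 x2 = v130 x1 x2 + v27 x1 x2 * v134 x1 x2 := by
  have a0 : (v43 x1 x2) * v40 x1 x2 = (v43 x1 x2) * (v119 x1 x2 + v27 x1 x2 * v122 x1 x2) := congrArg (fun z => (v43 x1 x2) * z) (s40 c)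
  have a1 : (v119 x1 x2) * v43 x1 x2 = (v119 x1 x2) * (v126 x1 x2 + v27 x1 x2 * v129 x1 x2) := congrArg (fun z => (v119 x1 x2) * z) (s43 c)
  try simp only [v1, v27, v44, v122, v129, v130, v131, v132, v134] at a0
  try simp only [v1, v27, v44, v122, v129, v130, v131, v132, v134] at a1
  simp only [v1, v27, v44, v122, v129, v130, v131, v132, v134]
  (try push_cast at a0 a1 ⊢)
  first | linear_combination a0 + a1 | ring | grind

theorem s45 (c : Cx x1 x2) : v45 x1 x2 = v135 x1 x2 + v27 x1 x2 * v136 x1 x2 := by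
  have a0 := s44 c
  try simp only [v1, v27, v45, v134, v135, v136] at a0
  simp only [v1, v27, v45, v134, v135, v136]
  (try push_cast at a0 ⊢)
  first | linear_combination -a0 | ring | grind

theorem s46 (c : Cx x1 x2) : v46 x1 x2 = v53 x1 x2 + v27 x1 x2 * v55 x1 x2 := by
  have a0 : (v25 x1 x2 + v52 x1 x2) * v25 x1 x2 = (v25 x1 x2 + v52 x1 x2) * (v52 x1 x2 + v27 x1 x2 * v50 x1 x2) := congrArg (fun z => (v25 x1 x2 + v52 x1 x2) * z) (s25 c)
  try simp only [v1, v5, v25, v27, v46, v50, v52, v53, v54, v55] at a0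
  simp only [v1, v5, v25, v27, v46, v50, v52, v53, v54, v55]
  (try push_cast at a0 ⊢)
  first | linear_combination a0 | ring | grind

theorem s47 (c : Cx x1 x2) : v47 x1 x2 = v64 x1 x2 + v27 x1 x2 * v66 x1 x2 := by
  have a0 : (v26 x1 x2 + v63 x1 x2) * v26 x1 x2 = (v26 x1 x2 + v63 x1 x2) * (v63 x1 x2 + v27 x1 x2 * v62 x1 x2) := congrArg (fun z => (v26 x1 x2 + v63 x1 x2) * z) (s26 c)
  try simp only [v0, v1, v26, v27, v47, v63, v64, v65, v66] at a0
  simp only [v0, v1, v26, v27, v47, v63, v64, v65, v66]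
  (try push_cast at a0 ⊢)
  first | linear_combination a0 | ring | grind

theorem s48 (c : Cx x1 x2) : v48 x1 x2 = v67 x1 x2 + v27 x1 x2 * v68 x1 x2 := by
  have a0 := s46 c
  have a1 := s47 c
  try simp only [v1, v25, v27, v48, v52, v54, v55, v67, v68] at a0
  try simp only [v1, v25, v27, v48, v52, v54, v55, v67, v68] at a1
  simp only [v1, v25, v27, v48, v52, v54, v55, v67, v68]
  (try push_cast at a0 a1 ⊢)
  first | linear_combination a0 + a1 | ring | grind

theorem s49 (c : Cx x1 x2) : v49 x1 x2 = v69 x1 x2 + v27 x1 x2 * v68 x1 x2 := by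
  have a0 := s48 c
  try simp only [v1, v5, v25, v27, v48, v49, v52, v54, v67, v68, v69] at a0
  simp only [v1, v5, v25, v27, v48, v49, v52, v54, v67, v68, v69]
  (try push_cast at a0 ⊢)
  first | linear_combination a0 | ring | grind

theorem s78 (c : Cx x1 x2) : v78 x1 x2 = v84 x1 x2 + v27 x1 x2 * v85 x1 x2 := by
  have a1 : (v7 x1 x2) * v24 x1 x2 = (v7 x1 x2) * (v19 x1 x2 + v27 x1 x2 * v62 x1 x2) := congrArg (fun z => (v7 x1 x2) * z) (s24 c)
  try simp only [v1, v27, v78, v84, v85] at a1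
  simp only [v1, v27, v78, v84, v85]
  (try push_cast at a1 ⊢)
  first | linear_combination a1 | ring | grind

theorem s79 (c : Cx x1 x2) : v79 x1 x2 = v86 x1 x2 + v27 x1 x2 * v87 x1 x2 := by
  have a0 : (v0 x1 x2) * v1 x1 x2 = (v0 x1 x2) * (v18 x1 x2 + v27 x1 x2 * v50 x1 x2) := congrArg (fun z => (v0 x1 x2) * z) (s1 c)
  try simp only [v0, v1, v5, v27, v50, v79, v86, v87] at a0
  simp only [v0, v1, v5, v27, v50, v79, v86, v87]
  (try push_cast at a0 ⊢)
  first | linear_combination a0 | ring | grind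

theorem s80 (c : Cx x1 x2) : v80 x1 x2 = v88 x1 x2 + v27 x1 x2 * v89 x1 x2 := by
  have a0 := s78 c
  have a1 := s79 c
  try simp only [v0, v1, v27, v80, v87, v88, v89] at a0
  try simp only [v0, v1, v27, v80, v87, v88, v89] at a1
  simp only [v0, v1, v27, v80, v87, v88, v89]
  (try push_cast at a0 a1 ⊢)
  first | linear_combination a0 - a1 | ring | grind

theorem s82 (c : Cx x1 x2) : v82 x1 x2 = v90 x1 x2 + v27 x1 x2 * v91 x1 x2 := by
  have a0 : (v81 x1 x2) * v80 x1 x2 = (v81 x1 x2) * (v88 x1 x2 + v27 x1 x2 * v89 x1 x2) := congrArg (fun z => (v81 x1 x2) * z) (s80 c)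
  try simp only [v0, v1, v27, v80, v82, v88, v89, v90, v91] at a0
  simp only [v0, v1, v27, v80, v82, v88, v89, v90, v91]
  (try push_cast at a0 ⊢)
  first | linear_combination a0 | ring | grind

theorem s83 (c : Cx x1 x2) : v83 x1 x2 = v92 x1 x2 + v27 x1 x2 * v91 x1 x2 := by
  have a0 := s82 c
  try simp only [v1, v9, v27, v83, v92] at a0
  simp only [v1, v9, v27, v83, v92]
  (try push_cast at a0 ⊢)
  first | linear_combination a0 | ring | grind

theorem s93 (c : Cx x1 x2) : v93 x1 x2 = v106 x1 x2 + v27 x1 x2 * v62 x1 x2 := by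
  have a0 := s26 c
  try simp only [v0, v1, v2, v3, v26, v27, v63, v93, v106] at a0
  simp only [v0, v1, v2, v3, v26, v27, v63, v93, v106]
  (try push_cast at a0 ⊢)
  first | linear_combination a0 | ring | grind

theorem s94 (c : Cx x1 x2) : v94 x1 x2 = v137 x1 x2 + v27 x1 x2 * v62 x1 x2 := by
  have a0 := s24 c
  try simp only [v1, v2, v27, v94, v137] at a0
  simp only [v1, v2, v27, v94, v137]
  (try push_cast at a0 ⊢)
  first | linear_combination a0 | ring | grind

theorem bD (c : Cx x1 x2) : v69 x1 x2 = 0 := by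
  have hc := c.hc
  have h3 := s3q x1 x2
  simp only [v0, v3, v5, v10, v11, v13, v14, v16, v17, v18, v19, v52, v53, v63, v64, v67, v69] at hc ⊢
  push_cast at hc ⊢
  grind

theorem sD (c : Cx x1 x2) : v49 x1 x2 = v27 x1 x2 * v68 x1 x2 := by
  have h := s49 c
  rw [bD c, zero_add] at h
  exact h

theorem s75 (c : Cx x1 x2) : v75 x1 x2 = v52 x1 x2 + v27 x1 x2 * v77 x1 x2 := by
  have hA := s25 c
  have hd := sD c
  have hK : v70 x1 x2 * v49 x1 x2 = v70 x1 x2 * (v27 x1 x2 * v68 x1 x2) := congrArg (fun z => v70 x1 x2 * z) hd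
  try simp only [v1, v5, v25, v27, v48, v49, v50, v52, v54, v68, v74, v75, v76, v77] at hA
  try simp only [v1, v5, v25, v27, v48, v49, v50, v52, v54, v68, v74, v75, v76, v77] at hK
  simp only [v1, v5, v25, v27, v48, v49, v50, v52, v54, v68, v74, v75, v76, v77]
  (try push_cast at hA hK ⊢)
  first | linear_combination (hA + hK) | grind

theorem bE (c : Cx x1 x2) : v92 x1 x2 = 0 := by
  have hc := c.hc
  have h3 := s3q x1 x2
  have g0 : v2 x1 x2 ≠ 0 := s3ne x1 x2
  simp only [v0, v3, v9, v10, v11, v13, v14, v16, v17, v18, v19, v81, v84, v86, v88, v90, v92] at hc ⊢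
  push_cast at hc ⊢
  grind

theorem hE (c : Cx x1 x2) : v83 x1 x2 = v27 x1 x2 * v91 x1 x2 := by
  have h := s83 c
  rw [bE c, zero_add] at h
  exact h

theorem bC12 (c : Cx x1 x2) : v0 x1 x2 * v52 x1 x2 - v106 x1 x2 * v34 x1 x2 = 0 := by
  have hc := c.hc
  have h3 := s3q x1 x2
  have g0 := (c.p32).ne'
  simp only [v0, v3, v5, v10, v11, v13, v14, v16, v17, v18, v19, v28, v29, v30, v31, v32, v33, v34, v52, v63, v106] at hc g0 ⊢
  push_cast at hc g0 ⊢
  grind

theorem hC12 (c : Cx x1 x2) : v0 x1 x2 * v75 x1 x2 - v93 x1 x2 * v34 x1 x2 = v27 x1 x2 * v109 x1 x2 := by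
  have a2 : v0 x1 x2 * v75 x1 x2 = v0 x1 x2 * (v52 x1 x2 + v27 x1 x2 * v77 x1 x2) := congrArg (fun z => v0 x1 x2 * z) (s75 c)
  have a3 : v34 x1 x2 * v93 x1 x2 = v34 x1 x2 * (v106 x1 x2 + v27 x1 x2 * v62 x1 x2) := congrArg (fun z => v34 x1 x2 * z) (s93 c)
  have b := bC12 c
  try simp only [v0, v1, v2, v3, v5, v25, v26, v27, v52, v63, v75, v77, v93, v106, v107, v108, v109] at a2
  try simp only [v0, v1, v2, v3, v5, v25, v26, v27, v52, v63, v75, v77, v93, v106, v107, v108, v109] at a3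
  try simp only [v0, v1, v2, v3, v5, v25, v26, v27, v52, v63, v75, v77, v93, v106, v107, v108, v109] at b
  simp only [v0, v1, v2, v3, v5, v25, v26, v27, v52, v63, v75, v77, v93, v106, v107, v108, v109]
  (try push_cast at a2 a3 b ⊢)
  first | linear_combination a2 - a3 + b | grind

theorem bC32 (c : Cx x1 x2) : v137 x1 x2 * v52 x1 x2 - v106 x1 x2 * v135 x1 x2 = 0 := by
  have hc := c.hc
  have h3 := s3q x1 x2
  have g0 := (c.p124).ne'
  simp only [v0, v3, v10, v11, v13, v14, v16, v17, v18, v19, v22, v52, v63, v106, v110, v112, v114, v115, v117, v119, v123, v124, v126, v130, v135, v137] at hc g0 ⊢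
  push_cast at hc g0 ⊢
  grind

theorem hC32 (c : Cx x1 x2) : v94 x1 x2 * v75 x1 x2 - v93 x1 x2 * v45 x1 x2 = v27 x1 x2 * v145 x1 x2 := by
  have a1 : v75 x1 x2 * v94 x1 x2 = v75 x1 x2 * (v137 x1 x2 + v27 x1 x2 * v62 x1 x2) := congrArg (fun z => v75 x1 x2 * z) (s94 c)
  have a2 : v137 x1 x2 * v75 x1 x2 = v137 x1 x2 * (v52 x1 x2 + v27 x1 x2 * v77 x1 x2) := congrArg (fun z => v137 x1 x2 * z) (s75 c)
  have a3 : v45 x1 x2 * v93 x1 x2 = v45 x1 x2 * (v106 x1 x2 + v27 x1 x2 * v62 x1 x2) := congrArg (fun z => v45 x1 x2 * z) (s93 c)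
  have a4 : v106 x1 x2 * v45 x1 x2 = v106 x1 x2 * (v135 x1 x2 + v27 x1 x2 * v136 x1 x2) := congrArg (fun z => v106 x1 x2 * z) (s45 c)
  have b := bC32 c
  try simp only [v0, v1, v2, v3, v5, v25, v26, v27, v45, v52, v63, v75, v77, v93, v94, v106, v135, v136, v137, v138, v139, v140, v141, v143, v144, v145] at a1
  try simp only [v0, v1, v2, v3, v5, v25, v26, v27, v45, v52, v63, v75, v77, v93, v94, v106, v135, v136, v137, v138, v139, v140, v141, v143, v144, v145] at a2
  try simp only [v0, v1, v2, v3, v5, v25, v26, v27, v45, v52, v63, v75, v77, v93, v94, v106, v135, v136, v137, v138, v139, v140, v141, v143, v144, v145] at a3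
  try simp only [v0, v1, v2, v3, v5, v25, v26, v27, v45, v52, v63, v75, v77, v93, v94, v106, v135, v136, v137, v138, v139, v140, v141, v143, v144, v145] at a4
  try simp only [v0, v1, v2, v3, v5, v25, v26, v27, v45, v52, v63, v75, v77, v93, v94, v106, v135, v136, v137, v138, v139, v140, v141, v143, v144, v145] at b
  simp only [v0, v1, v2, v3, v5, v25, v26, v27, v45, v52, v63, v75, v77, v93, v94, v106, v135, v136, v137, v138, v139, v140, v141, v143, v144, v145]
  (try push_cast at a1 a2 a3 a4 b ⊢)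
  first | linear_combination a1 + a2 - a3 - a4 + b | grind

theorem bC13 (c : Cx x1 x2) : v0 x1 x2 * v135 x1 x2 - v137 x1 x2 * v34 x1 x2 = 0 := by
  have hc := c.hc
  have h3 := s3q x1 x2
  have g0 := (c.p32).ne'
  have g1 := (c.p124).ne'
  simp only [v0, v3, v5, v10, v11, v13, v14, v16, v17, v18, v19, v22, v28, v29, v30, v31, v32, v33, v34, v110, v112, v114, v115, v117, v119, v123, v124, v126, v130, v135, v137] at hc g0 g1 ⊢
  push_cast at hc g0 g1 ⊢
  grind

theorem hC13 (c : Cx x1 x2) : v0 x1 x2 * v45 x1 x2 - v94 x1 x2 * v34 x1 x2 = v27 x1 x2 * v147 x1 x2 := by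
  have a2 : v0 x1 x2 * v45 x1 x2 = v0 x1 x2 * (v135 x1 x2 + v27 x1 x2 * v136 x1 x2) := congrArg (fun z => v0 x1 x2 * z) (s45 c)
  have a3 : v34 x1 x2 * v94 x1 x2 = v34 x1 x2 * (v137 x1 x2 + v27 x1 x2 * v62 x1 x2) := congrArg (fun z => v34 x1 x2 * z) (s94 c)
  have b := bC13 c
  try simp only [v0, v1, v2, v27, v45, v94, v108, v135, v136, v137, v146, v147] at a2
  try simp only [v0, v1, v2, v27, v45, v94, v108, v135, v136, v137, v146, v147] at a3
  try simp only [v0, v1, v2, v27, v45, v94, v108, v135, v136, v137, v146, v147] at b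
  simp only [v0, v1, v2, v27, v45, v94, v108, v135, v136, v137, v146, v147]
  (try push_cast at a2 a3 b ⊢)
  first | linear_combination a2 - a3 + b | grind

theorem core (c : Cx x1 x2) (hW : 0 ≤ v27 x1 x2) (hWQ : 0 ≤ v27 x1 x2 * v149 x1 x2) :
    0 ≤ starw_v (v83 x1 x2) (v0 x1 x2) (v93 x1 x2) ((-v94 x1 x2)) ((-v34 x1 x2)) ((-v75 x1 x2)) (v45 x1 x2) := by
  have e1 : v93 x1 x2 * (-v34 x1 x2) - v0 x1 x2 * (-v75 x1 x2) = v27 x1 x2 * v109 x1 x2 := by linear_combination hC12 c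
  have e2 : (-v94 x1 x2) * (-v75 x1 x2) - v93 x1 x2 * v45 x1 x2 = v27 x1 x2 * v145 x1 x2 := by linear_combination hC32 c
  have e3 : v0 x1 x2 * v45 x1 x2 - (-v94 x1 x2) * (-v34 x1 x2) = v27 x1 x2 * v147 x1 x2 := by linear_combination hC13 c
  have f2 : (-v94 x1 x2) = v148 x1 x2 := by
    simp only [v0, v2, v3, v26, v93, v94, v148]
    try (push_cast; ring)
  rw [starw_eq hW (hE c) e1 e2 e3]
  rw [f2]
  exact hWQ

end Pool.Agent.Strip051.LB.ChB03V1_pp_023
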